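import Pool.Agent.Lib.MP_e4e265_co.RowThree

namespace Pool.Agent.Results.MP_e4e265_co.RowsUpToFour

open Pool.Agent.Lib.MP_e4e265_co

/-- Rows `1, 2, 3, 4` of the greedy mex matrix are permutations of the natural numbers. -/
theorem result : ∀ i : ℕ, 1 ≤ i → i ≤ 4 → Function.Bijective (fun j : ℕ => q i j) :=
  fun _ h1 h4 => row_bijective h1 h4

end Pool.Agent.Results.MP_e4e265_co.RowsUpToFour
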